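import Pool.Agent.Helper77.SUBK.SheetP
import Pool.Agent.Helper72.SUB.CBR

/-!
Project SUBK, row CBM: compound matrices over a number field.
-/

set_option autoImplicit false

namespace Pool.Agent.Helper72.SUBK

open Finset Matrix Equiv
open Pool.Agent.Helper70.SUB Pool.Agent.Helper77.SUBK Pool.Agent.Helper72.SUB

variable {S : Finset ℕ} {M : Type} [Field M] [NumberField M]

theorem nv_sign (P : PF S M) {v : Option ℕ} (hv : v ∈ plc S) {p : ℕ} (σ : Perm (Fin p)) (x : M) :
    P.nv v (Equiv.Perm.sign σ • x) = P.nv v x := by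
  rcases Int.units_eq_one_or (Equiv.Perm.sign σ) with h | h
  · rw [h, one_smul]
  · rw [h]
    have : ((-1 : ℤˣ) • x : M) = -x := by
      simp
    rw [this, P.neg hv]

/-- the size of a determinant at any place, without the factorial at the finite places -/
theorem nv_det_le (P : PF S M) {v : Option ℕ} (hv : v ∈ plc S) {p : ℕ}
    (A : Matrix (Fin p) (Fin p) M) (s t : Fin p → ℝ) (C : ℝ)
    (hs : ∀ i, 0 ≤ s i) (ht : ∀ i, 0 ≤ t i) (hC : 0 ≤ C)
    (hA : ∀ i k, P.nv v (A i k) ≤ C * s i * t k) :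
    P.nv v A.det ≤ (if v = none then (p.factorial : ℝ) else 1) *
      (C ^ p * (∏ i, s i) * ∏ k, t k) := by
  have hB : 0 ≤ C ^ p * (∏ i, s i) * ∏ k, t k :=
    mul_nonneg (mul_nonneg (pow_nonneg hC _) (prod_nonneg fun i _ => hs i))
      (prod_nonneg fun i _ => ht i)
  have h3 := P.sum_bd hv (univ : Finset (Perm (Fin p)))
    (fun σ => Equiv.Perm.sign σ • ∏ i, A (σ i) i) _ hB (by
      intro σ _
      show P.nv v (Equiv.Perm.sign σ • ∏ i, A (σ i) i) ≤ _
      rw [nv_sign P hv, P.prod hv]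
      calc ∏ i, P.nv v (A (σ i) i) ≤ ∏ i, (C * s (σ i) * t i) :=
            prod_le_prod (fun i _ => P.nn _ _) fun i _ => hA _ _
        _ = C ^ p * (∏ i, s i) * ∏ k, t k := by
            rw [prod_mul_distrib, prod_mul_distrib, prod_const, card_univ, Fintype.card_fin,
              Equiv.prod_comp σ s])
  rw [Matrix.det_apply]
  have h4 : ((univ : Finset (Perm (Fin p))).card : ℝ) = (p.factorial : ℝ) := by
    rw [card_univ, Fintype.card_perm, Fintype.card_fin]
  rw [h4] at h3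
  exact h3

theorem cmp_nv_le (P : PF S M) (n p : ℕ) {v : Option ℕ} (hv : v ∈ plc S)
    (A : Matrix (Fin n) (Fin n) M) (s t : Fin n → ℝ) (C : ℝ)
    (hs : ∀ i, 0 ≤ s i) (ht : ∀ i, 0 ≤ t i) (hC : 0 ≤ C)
    (hA : ∀ i k, P.nv v (A i k) ≤ C * s i * t k) (I J : {I : Finset (Fin n) // I.card = p}) :
    P.nv v (cmp p A I J) ≤ (if v = none then (p.factorial : ℝ) else 1) *
      (C ^ p * (∏ i ∈ I.1, s i) * ∏ k ∈ J.1, t k) := by
  have h1 := nv_det_le P hv (A.submatrix (emb I) (emb J)) (fun k => s (emb I k))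
    (fun k => t (emb J k)) C (fun i => hs _) (fun i => ht _) hC (fun i k => hA _ _)
  rw [emb_prod I s, emb_prod J t] at h1
  exact h1

omit [NumberField M] in
/-- compound of an integral matrix -/
theorem cmp_mM (n p : ℕ) (B : Matrix (Fin n) (Fin n) ℤ)
    (I J : {I : Finset (Fin n) // I.card = p}) :
    cmp p (mM M B) I J = ((cmp p B I J : ℤ) : M) := by
  show ((mM M B).submatrix (emb I) (emb J)).det = (((B.submatrix (emb I) (emb J)).det : ℤ) : M)
  rw [Int.cast_det]
  rfl

theorem cmp_mQ (n p : ℕ) (B : Matrix (Fin n) (Fin n) ℤ)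
    (I J : {I : Finset (Fin n) // I.card = p}) :
    cmp p (mQ B) I J = ((cmp p B I J : ℤ) : ℚ) := by
  show ((mQ B).submatrix (emb I) (emb J)).det = (((B.submatrix (emb I) (emb J)).det : ℤ) : ℚ)
  rw [Int.cast_det]
  rfl

/-- inverse of a compound -/
theorem cmp_inv {K : Type} [Field K] (n p : ℕ) (A : Matrix (Fin n) (Fin n) K) (hA : A.det ≠ 0) :
    (cmp p A).det ≠ 0 ∧ cmp p A⁻¹ = (cmp p A)⁻¹ := by
  have h1 : cmp p A * cmp p A⁻¹ = 1 := by
    rw [← cmp_mul, Matrix.mul_nonsing_inv _ (isUnit_iff_ne_zero.2 hA), cmp_one]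
  constructor
  · intro h2
    have h3 := congrArg Matrix.det h1
    rw [Matrix.det_mul, h2, zero_mul, Matrix.det_one] at h3
    exact zero_ne_one h3
  · exact (Matrix.inv_eq_right_inv h1).symm

/-- compound of a matrix with entries in the closure of the rationals -/
theorem cmp_Rt (P : PF S M) {n p : ℕ} {v : Option ℕ} (hv : v ∈ plc S)
    (A : Matrix (Fin n) (Fin n) M) (hA : ∀ i k, Rt P v (A i k))
    (I J : {I : Finset (Fin n) // I.card = p}) : Rt P v (cmp p A I J) := by
  show Rt P v (A.submatrix (emb I) (emb J)).det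
  exact Rt.det hv _ fun i j => hA _ _

/-- **Row CBM.** -/
theorem CBM : ST_CBM := by
  intro M _ _ n p
  refine ⟨cmp_mul p, cmp_one p, cmp_transpose p, fun A hA => cmp_inv n p A hA, ?_, ?_, ?_⟩
  · intro B I J
    rw [cmp_mM, cmp_mQ, Rat.cast_intCast]
  · intro S P v A s t C _ hv hs ht hC hA I J
    refine (cmp_nv_le P n p hv A s t C hs ht hC hA I J).trans ?_
    have hB : 0 ≤ C ^ p * (∏ i ∈ I.1, s i) * ∏ k ∈ J.1, t k :=
      mul_nonneg (mul_nonneg (pow_nonneg hC _) (prod_nonneg fun i _ => hs i))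
        (prod_nonneg fun i _ => ht i)
    have h1 : (if v = none then (p.factorial : ℝ) else 1) ≤ (p.factorial : ℝ) := by
      split_ifs
      · exact le_rfl
      · exact_mod_cast Nat.succ_le_of_lt (Nat.factorial_pos p)
    calc (if v = none then (p.factorial : ℝ) else 1) *
          (C ^ p * (∏ i ∈ I.1, s i) * ∏ k ∈ J.1, t k)
        ≤ (p.factorial : ℝ) * (C ^ p * (∏ i ∈ I.1, s i) * ∏ k ∈ J.1, t k) :=
          mul_le_mul_of_nonneg_right h1 hB
      _ = _ := by ring
  · intro S P v A hv hA I J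
    exact cmp_Rt P hv A hA I J

end Pool.Agent.Helper72.SUBK
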