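import Pool.Agent.Helper70.SUB.SheetL

/-!
Project SUBK, row EXPK: truncated binomial series.
-/

set_option autoImplicit false

namespace Pool.Agent.Helper72.SUBK

open Finset Polynomial
open Pool.Agent.Helper70.SUBL

/-- truncated `n`-th roots of a polynomial with constant coefficient `1` -/
theorem trunc_root (n : ℕ) (hn : n ≠ 0) (A : ℚ[X]) (hA : A.coeff 0 = 1) (K : ℕ) (hK : 1 ≤ K) :
    ∃ B : ℚ[X], B.natDegree < K ∧ B.coeff 0 = 1 ∧ (X : ℚ[X]) ^ K ∣ B ^ n - A := by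
  induction K, hK using Nat.le_induction with
  | base =>
    refine ⟨1, by simp, by simp, ?_⟩
    rw [pow_one, X_dvd_iff, one_pow, coeff_sub, hA]
    simp
  | succ K hK ih =>
    obtain ⟨B, hB1, hB2, R, hR⟩ := ih
    obtain ⟨c, hc⟩ : ∃ c : ℚ, R.coeff 0 + n * c = 0 := by
      refine ⟨-(R.coeff 0) / n, ?_⟩
      have : (n : ℚ) ≠ 0 := by exact_mod_cast hn
      field_simp
      ring
    obtain ⟨k, hk⟩ := Polynomial.powAddExpansion B (C c * X ^ K) n
    refine ⟨B + C c * X ^ K, ?_, ?_, ?_⟩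
    · refine lt_of_le_of_lt (natDegree_add_le _ _) (max_lt (by omega) ?_)
      exact lt_of_le_of_lt (natDegree_C_mul_X_pow_le c K) (Nat.lt_succ_self K)
    · rw [coeff_add, hB2, coeff_C_mul, coeff_X_pow, if_neg (by omega), mul_zero, add_zero]
    · have h1 : (B + C c * X ^ K) ^ n - A =
          X ^ K * (R + (n : ℚ[X]) * B ^ (n - 1) * C c + k * C c ^ 2 * X ^ K) := by
        have h2 : B ^ n = A + X ^ K * R := by rw [← hR]; ring
        rw [hk, h2]
        ring
      rw [h1, pow_succ]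
      refine mul_dvd_mul_left _ ?_
      rw [X_dvd_iff, coeff_add, coeff_add, mul_coeff_zero, mul_coeff_zero, mul_coeff_zero,
        coeff_natCast_ite, if_pos rfl, coeff_zero_eq_eval_zero (B ^ (n - 1)), eval_pow,
        ← coeff_zero_eq_eval_zero, hB2, one_pow, mul_one, coeff_C_zero, coeff_X_pow,
        if_neg (by omega), mul_zero, add_zero]
      exact hc

/-- the estimate -/
theorem trunc_est (n : ℕ) (hn : n ≠ 0) (A : ℚ[X]) (hA : A.coeff 0 = 1) (K : ℕ) (hK : 1 ≤ K) :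
    ∃ (c : ℕ → ℚ) (C : ℝ), c 0 = 1 ∧ 1 ≤ C ∧ ∀ v : ℂ, ‖v‖ ≤ 1 →
      ‖(∑ k ∈ Finset.range K, (c k : ℂ) * v ^ k) ^ n - aeval v A‖ ≤ C * ‖v‖ ^ K := by
  obtain ⟨B, hB1, hB2, R, hR⟩ := trunc_root n hn A hA K hK
  refine ⟨fun k => B.coeff k, 1 + ∑ i ∈ R.support, ‖((R.coeff i : ℚ) : ℂ)‖, hB2, ?_, ?_⟩
  · have : 0 ≤ ∑ i ∈ R.support, ‖((R.coeff i : ℚ) : ℂ)‖ := sum_nonneg fun _ _ => norm_nonneg _
    linarith
  · intro v hv
    have h1 : ∑ k ∈ Finset.range K, ((B.coeff k : ℚ) : ℂ) * v ^ k = aeval v B := by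
      rw [aeval_eq_sum_range' hB1]
      refine sum_congr rfl fun i _ => ?_
      rw [Algebra.smul_def]
      rfl
    have h2 : (aeval v B) ^ n - aeval v A = v ^ K * aeval v R := by
      have := congrArg (aeval v) hR
      simpa using this
    rw [h1, h2, norm_mul, norm_pow, mul_comm]
    refine mul_le_mul_of_nonneg_right ?_ (by positivity)
    have h3 : ‖aeval v R‖ ≤ ∑ i ∈ R.support, ‖((R.coeff i : ℚ) : ℂ)‖ := by
      rw [aeval_def, eval₂_eq_sum, sum_def]
      refine (norm_sum_le _ _).trans (sum_le_sum fun i _ => ?_)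
      rw [norm_mul, norm_pow]
      have h4 : ‖v‖ ^ i ≤ 1 := pow_le_one₀ (norm_nonneg _) hv
      exact mul_le_of_le_one_right (norm_nonneg _) h4
    linarith

/-- **Row EXPK.** -/
theorem EXPK : ST_EXPK := by
  intro K hK
  constructor
  · obtain ⟨c, C, hc, hC, H⟩ := trunc_est 2 (by norm_num) ((1 + X) ^ 3)
      (by rw [coeff_zero_eq_eval_zero]; simp) K hK
    refine ⟨c, C, hc, hC, fun v hv => ?_⟩
    have := H v hv
    simpa using this
  · obtain ⟨c, C, hc, hC, H⟩ := trunc_est 3 (by norm_num) ((1 + X) ^ 2)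
      (by rw [coeff_zero_eq_eval_zero]; simp) K hK
    refine ⟨c, C, hc, hC, fun v hv => ?_⟩
    have := H v hv
    simpa using this

end Pool.Agent.Helper72.SUBK
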