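import Pool.Agent.Helper77.SUBK.SheetP

/-!
Project SUBK, row LIOM: Liouville's inequality.
-/

set_option autoImplicit false

namespace Pool.Agent.Helper72.SUBK

open Finset
open Pool.Agent.Helper70.SUB Pool.Agent.Helper77.SUBK

open NumberField in
/-- the norm as a product over the embeddings -/
theorem norm_emb {M : Type} [Field M] [NumberField M] (x : M) :
    ∏ φ : M →+* ℂ, ‖φ x‖ = |((Algebra.norm ℚ x : ℚ) : ℝ)| := by
  have h1 : ‖(algebraMap ℚ ℂ) ((Algebra.norm ℚ) x)‖ = ‖∏ σ : M →ₐ[ℚ] ℂ, σ x‖ := by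
    rw [Algebra.norm_eq_prod_embeddings ℚ ℂ x]
  rw [norm_prod, ← Fintype.prod_equiv (RingHom.equivRatAlgHom M ℂ) (fun f => ‖f x‖)
      (fun φ => ‖φ x‖) fun _ => by simp [RingHom.equivRatAlgHom_apply]] at h1
  rw [← h1, eq_ratCast, ← Complex.ofReal_ratCast, Complex.norm_real, Real.norm_eq_abs]

open NumberField in
/-- bound of the norm -/
theorem norm_bd {M : Type} [Field M] [NumberField M] (x : M) (K : ℝ)
    (hK : ∀ φ : M →+* ℂ, ‖φ x‖ ≤ K) (φ0 : M →+* ℂ) :
    |((Algebra.norm ℚ x : ℚ) : ℝ)| ≤ ‖φ0 x‖ * K ^ (Module.finrank ℚ M - 1) := by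
  classical
  rw [← norm_emb, ← Finset.mul_prod_erase univ _ (Finset.mem_univ φ0)]
  refine mul_le_mul_of_nonneg_left ?_ (norm_nonneg _)
  calc ∏ φ ∈ univ.erase φ0, ‖φ x‖ ≤ ∏ φ ∈ univ.erase φ0, K :=
        Finset.prod_le_prod (fun φ _ => norm_nonneg _) fun φ _ => hK φ
    _ = K ^ (Module.finrank ℚ M - 1) := by
        rw [Finset.prod_const, Finset.card_erase_of_mem (Finset.mem_univ φ0), Finset.card_univ,
          NumberField.Embeddings.card]

open NumberField in
/-- **Row LIOM.** -/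
theorem LIOM (hAV : ST_AV) : ST_LIOM := by
  classical
  intro M _ _ S P w D H hS hw hD hint hH hH1 v hv
  have hD1 : (1 : ℝ) ≤ (D : ℝ) := by exact_mod_cast hD
  have hD0 : (D : M) ≠ 0 := by
    have : D ≠ 0 := by omega
    exact_mod_cast this
  obtain ⟨α, hα⟩ : ∃ α : 𝓞 M, (α : M) = (D : M) * w := ⟨⟨_, hint⟩, rfl⟩
  have hα0 : α ≠ 0 := by
    intro h
    rw [h] at hα
    exact (mul_ne_zero hD0 hw) (by rw [← hα]; simp)
  obtain ⟨n, hn⟩ : ∃ n : ℕ, n = Ideal.absNorm (Ideal.span {α}) := ⟨_, rfl⟩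
  have hnn : (n : ℝ) = |((Algebra.norm ℚ (α : M) : ℚ) : ℝ)| := by
    rw [hn, Ideal.absNorm_span_singleton, Nat.cast_natAbs, ← Algebra.coe_norm_int]
    push_cast
    rfl
  have hn0 : n ≠ 0 := by
    rw [hn]
    intro h
    rw [Ideal.absNorm_eq_zero_iff, Ideal.span_singleton_eq_bot] at h
    exact hα0 h
  have hn1 : (1 : ℝ) ≤ (n : ℝ) := by exact_mod_cast Nat.one_le_iff_ne_zero.2 hn0
  obtain ⟨β, hβ⟩ : ∃ β : 𝓞 M, β * α = (n : 𝓞 M) := by
    have h1 := Ideal.absNorm_mem (Ideal.span {α})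
    rw [← hn] at h1
    exact Ideal.mem_span_singleton'.1 h1
  have hfr : 1 ≤ Module.finrank ℚ M := Module.finrank_pos
  have hbd : ∀ φ : M →+* ℂ, ‖φ (α : M)‖ ≤ (D : ℝ) * H := by
    intro φ
    rw [hα, map_mul, norm_mul, map_natCast, Complex.norm_natCast]
    exact mul_le_mul_of_nonneg_left (hH φ) (by positivity)
  have hDH : 1 ≤ (D : ℝ) * H := one_le_mul_of_one_le_of_one_le hD1 hH1
  have hpow : ((D : ℝ) * H) ^ (Module.finrank ℚ M) =
      ((D : ℝ) * H) * ((D : ℝ) * H) ^ (Module.finrank ℚ M - 1) := by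
    rw [← pow_succ', Nat.sub_add_cancel hfr]
  have hp1 : 1 ≤ ((D : ℝ) * H) ^ (Module.finrank ℚ M - 1) := one_le_pow₀ hDH
  have hnu : 0 ≤ P.nv v w := P.nn _ _
  cases v with
  | none =>
    have h1 := norm_bd (α : M) _ hbd P.emb
    rw [← hnn] at h1
    have h2 : ‖P.emb (α : M)‖ = D * P.nv none w := by
      rw [hα, map_mul, norm_mul, map_natCast, Complex.norm_natCast, P.inf]
    rw [h2] at h1
    rw [hpow]
    calc (1 : ℝ) ≤ n := hn1
      _ ≤ D * P.nv none w * (D * H) ^ (Module.finrank ℚ M - 1) := h1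
      _ = D * 1 * (D * H) ^ (Module.finrank ℚ M - 1) * P.nv none w := by ring
      _ ≤ D * H * (D * H) ^ (Module.finrank ℚ M - 1) * P.nv none w := by
          refine mul_le_mul_of_nonneg_right (mul_le_mul_of_nonneg_right ?_ (by positivity)) hnu
          exact mul_le_mul_of_nonneg_left hH1 (by positivity)
  | some p =>
    have hp := of_mem_some hv
    have h1 := norm_bd (α : M) _ hbd P.emb
    rw [← hnn] at h1
    have h2 : (n : ℝ) ≤ (D * H) ^ (Module.finrank ℚ M) := by
      rw [hpow]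
      exact h1.trans (mul_le_mul_of_nonneg_right (hbd _) (by positivity))
    have h3 : P.nv (some p) (β : M) ≤ 1 := P.integral_le hAV hS hp β.2
    have h4 : P.nv (some p) (n : M) = P.nv (some p) (β : M) * P.nv (some p) (α : M) := by
      rw [← P.mul _ hv]
      congr 1
      rw [← map_mul, hβ]
      simp
    have h5 : 1 ≤ (n : ℝ) * P.nv (some p) (n : M) := by
      rw [P.natCast hv]
      have h6 := Pool.Agent.Helper15.SUB.av_fact (hS p hp) (n : ℤ) (by exact_mod_cast hn0)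
      rw [Int.cast_natCast, Int.natAbs_natCast] at h6
      rw [h6]
      have h7 : p ^ n.factorization p ≤ n := Nat.le_of_dvd (Nat.pos_of_ne_zero hn0)
        (Nat.ordProj_dvd n p)
      have h8 : (0 : ℝ) < (p : ℝ) ^ n.factorization p := by
        have := (hS p hp).pos
        positivity
      rw [mul_one_div, one_le_div h8]
      exact_mod_cast h7
    have h6 : P.nv (some p) (α : M) ≤ P.nv (some p) w := by
      rw [hα, P.mul _ hv]
      have h7 : P.nv (some p) (D : M) ≤ 1 := by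
        have := P.int_le hAV hS hp (D : ℤ)
        simpa using this
      exact mul_le_of_le_one_left hnu h7
    calc (1 : ℝ) ≤ n * P.nv (some p) (n : M) := h5
      _ = n * (P.nv (some p) (β : M) * P.nv (some p) (α : M)) := by rw [h4]
      _ ≤ n * (1 * P.nv (some p) w) := by
          refine mul_le_mul_of_nonneg_left ?_ (by positivity)
          exact mul_le_mul h3 h6 (P.nn _ _) zero_le_one
      _ = n * P.nv (some p) w := by ring
      _ ≤ (D * H) ^ (Module.finrank ℚ M) * P.nv (some p) w := mul_le_mul_of_nonneg_right h2 hnu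

end Pool.Agent.Helper72.SUBK
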