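import Pool.Agent.Helper45.SUB.PARH
import Pool.Agent.Helper72.SUBK.CBM

/-!
Project SUBK, row PARHM: the hypotheses of Theorem G for the compound, over a number field.
-/

set_option autoImplicit false

namespace Pool.Agent.Helper72.SUBK

open Finset Matrix
open Pool.Agent.Helper70.SUB Pool.Agent.Helper77.SUBK Pool.Agent.Helper72.SUB
open Pool.Agent.Helper45.SUB (exists_prim prod_compare prod_top cmp_cast padic_cmp av_nonneg')

/-- products of compounds, enumerated -/
theorem sum_enu' {K : Type} [AddCommMonoid K] {n p : ℕ}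
    (f : {I : Finset (Fin n) // I.card = p} → K) :
    ∑ J, f ((enu n p).symm J) = ∑ I, f I := (enu n p).symm.sum_comp f

/-- inverse of a matrix under a homomorphism of fields -/
theorem map_inv_mat {K L : Type} [Field K] [Field L] (φ : K →+* L) {n : ℕ}
    (A : Matrix (Fin n) (Fin n) K) (hA : A.det ≠ 0) : (A.map φ)⁻¹ = (A⁻¹).map φ := by
  apply Matrix.inv_eq_right_inv
  have h1 : A * A⁻¹ = 1 := Matrix.mul_nonsing_inv _ (isUnit_iff_ne_zero.2 hA)
  have h2 := congrArg (fun X : Matrix (Fin n) (Fin n) K => φ.mapMatrix X) h1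
  simp only [map_mul, map_one] at h2
  exact h2

theorem mQ_map {M : Type} [Field M] [CharZero M] {n : ℕ} (B : Matrix (Fin n) (Fin n) ℤ) :
    (mQ B).map (Rat.castHom M) = mM M B := by
  ext i j
  simp [mQ, mM]

/-- compound of a matrix under a homomorphism -/
theorem cmp_map {K L : Type} [CommRing K] [CommRing L] (φ : K →+* L) {n p : ℕ}
    (A : Matrix (Fin n) (Fin n) K) (I J : {I : Finset (Fin n) // I.card = p}) :
    cmp p (A.map φ) I J = φ (cmp p A I J) := by
  show ((A.map φ).submatrix (emb I) (emb J)).det = φ (A.submatrix (emb I) (emb J)).det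
  rw [RingHom.map_det]
  rfl

theorem cmp_inv_mM {M : Type} [Field M] [CharZero M] {n p : ℕ} (B : Matrix (Fin n) (Fin n) ℤ)
    (hB : (mQ B).det ≠ 0) (I J : {I : Finset (Fin n) // I.card = p}) :
    cmp p ((mM M B)⁻¹)ᵀ I J = ((cmp p ((mQ B)⁻¹)ᵀ I J : ℚ) : M) := by
  have h1 : ((mM M B)⁻¹)ᵀ = (((mQ B)⁻¹)ᵀ).map (Rat.castHom M) := by
    rw [← mQ_map, map_inv_mat _ _ hB, Matrix.transpose_map]
  rw [h1, cmp_map]
  rfl

/-- **Row PARHM.** -/
theorem PARHM (hAV : ST_AV) (hCBM : ST_CBM) : ST_PARHM := by
  intro M _ _ S P n q A C hS hA hC hq hqn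
  obtain ⟨hmul, hone, htr, hinv, hcmpQ, hbd, hRt⟩ := hCBM M n (n - q)
  have hAV2 := hAV.2.2 S hS
  obtain ⟨hAVpos, hAVmul, -, -, -, -, hAVpf, -, -⟩ := hAV2
  set D : ℝ := ((n - q).factorial : ℝ) * C ^ (n - q) with hD
  have hD1 : 1 ≤ D := by
    have h1 : (1 : ℝ) ≤ ((n - q).factorial : ℝ) := by exact_mod_cast (Nat.factorial_pos _)
    have h2 : (1 : ℝ) ≤ C ^ (n - q) := one_le_pow₀ hC
    calc (1 : ℝ) = 1 * 1 := by ring
      _ ≤ D := mul_le_mul h1 h2 zero_le_one (by linarith)
  have hcard : 1 ≤ (plc S).card := Finset.card_pos.mpr ⟨none, by simp [plc]⟩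
  refine ⟨D ^ (plc S).card, one_le_pow₀ hD1, ?_⟩
  intro s B lam top hs hB htop
  have hlam := hB.pos
  have hmono := hB.mono
  have hBdet : (mQ B).det ≠ 0 := by
    have h1 := hB.det_ne
    have h2 : (mQ B).det = ((B.det : ℤ) : ℚ) := by
      exact (RingHom.map_det (Int.castRingHom ℚ) B).symm
    rw [h2]
    exact_mod_cast h1
  -- the vector h
  have hx0 : (fun I => cmp (n - q) ((mQ B)⁻¹)ᵀ I top) ≠ 0 := by
    intro h0
    have h1 : (cmp (n - q) ((mQ B)⁻¹)ᵀ).det ≠ 0 := by
      refine (cmp_inv _ _ _ ?_).1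
      rw [Matrix.det_transpose, Matrix.det_nonsing_inv]
      simpa using hBdet
    exact h1 (Matrix.det_eq_zero_of_column_eq_zero top fun I => congrFun h0 I)
  obtain ⟨h', w, hw, hprim', hh'⟩ := exists_prim _ hx0
  refine ⟨fun I => h' ((enu n (n - q)).symm I), w, hw, ?_, ?_⟩
  · intro I
    show _ = w * (h' ((enu n (n - q)).symm (enu n (n - q) I)) : ℚ)
    rw [Equiv.symm_apply_apply]
    exact hh' I
  -- the place-wise identities
  have hcol : ∀ v, ∀ (J : {I : Finset (Fin n) // I.card = n - q}) I,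
      (cmpFM (n - q) (A v)).mulVec
        (cM (fun I => cmp (n - q) B ((enu n (n - q)).symm I) J)) I
      = cmp (n - q) (A v * mM M B) ((enu n (n - q)).symm I) J := by
    intro v J I
    rw [hmul, Matrix.mul_apply, ← sum_enu']
    show ∑ K, cmpFM (n - q) (A v) I K * ((cmp (n - q) B ((enu n (n - q)).symm K) J : ℤ) : M) = _
    refine Finset.sum_congr rfl fun K _ => ?_
    rw [← cmp_mM]
    rfl
  have hAdet : ∀ v ∈ plc S, (A v).det ≠ 0 := hA
  have hwM : ((w : ℚ) : M) ≠ 0 := by exact_mod_cast hw
  have hrow : ∀ v ∈ plc S, ∀ I,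
      (((cmpFM (n - q) (A v))⁻¹)ᵀ).mulVec (cM (fun I => h' ((enu n (n - q)).symm I))) I
      = ((w⁻¹ : ℚ) : M) * cmp (n - q) ((A v * mM M B)⁻¹)ᵀ ((enu n (n - q)).symm I) top := by
    intro v hv I
    have h1 : ((A v * mM M B)⁻¹)ᵀ = ((A v)⁻¹)ᵀ * ((mM M B)⁻¹)ᵀ := by
      rw [Matrix.mul_inv_rev, Matrix.transpose_mul]
    rw [h1, hmul, Matrix.mul_apply, ← sum_enu', Finset.mul_sum]
    show ∑ K, (cmpFM (n - q) (A v))⁻¹ K I * ((h' ((enu n (n - q)).symm K) : ℤ) : M) = _
    refine Finset.sum_congr rfl fun K _ => ?_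
    have h2 : (cmpFM (n - q) (A v))⁻¹ = (cmp (n - q) (A v)⁻¹).submatrix (enu n (n - q)).symm
        (enu n (n - q)).symm := by
      rw [(hinv _ (hA v hv)).2]
      exact Matrix.inv_submatrix_equiv _ _ _
    rw [h2, htr, cmp_inv_mM B hBdet, hh']
    push_cast
    show cmp (n - q) (A v)⁻¹ _ _ * (h' _ : M) =
      (w : M)⁻¹ * (cmp (n - q) (A v)⁻¹ _ _ * ((w : M) * (h' _ : M)))
    field_simp
  have hsp : ∀ v ∈ plc S, ∀ I : {I : Finset (Fin n) // I.card = n - q},
      0 < ∏ i ∈ I.1, s v i := fun v hv I => Finset.prod_pos fun i _ => hs v hv i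
  have hltop : 0 < ∏ l ∈ univ.filter (fun l : Fin n => q ≤ (l : ℕ)), lam l :=
    Finset.prod_pos fun i _ => hlam i
  have hDc : D ≤ D ^ (plc S).card := by
    calc D = D ^ 1 := (pow_one D).symm
      _ ≤ _ := pow_le_pow_right₀ hD1 hcard
  refine ⟨?_, ?_, ?_, ?_, ?_, ?_⟩
  · intro d hd
    refine hprim' d fun I => ?_
    have h9 : d ∣ h' ((enu n (n - q)).symm (enu n (n - q) I)) := hd (enu n (n - q) I)
    rwa [Equiv.symm_apply_apply] at h9
  · intro v hv I
    exact hsp v hv _
  · exact mul_pos (by positivity) (mul_pos (hlam _) (Finset.prod_pos fun i _ => hlam i))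
  · exact div_pos hltop (by positivity)
  · intro y hy
    -- the orthogonality
    have h1 : ∀ J : {I : Finset (Fin n) // I.card = n - q}, J ≠ top →
        ∑ I, cmp (n - q) (mQ B) I J * y (enu n (n - q) I) = 0 := by
      intro J hJ
      have h2 := hy (fun I => cmp (n - q) B ((enu n (n - q)).symm I) J) ?_
      · rw [← sum_enu']
        rw [← h2]
        refine Finset.sum_congr rfl fun K _ => ?_
        rw [cmp_cast, Equiv.apply_symm_apply, mul_comm]
      · intro v hv I
        rw [hcol]
        cases v with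
        | none =>
          rw [if_pos rfl]
          have h3 := hbd S P none (A none * mM M B) (s none) lam C hS hv (fun i => (hs none hv i).le)
            (fun i => (hlam i).le) (by linarith) hB.inf_le ((enu n (n - q)).symm I) J
          have h4 := prod_top hq hqn lam hlam hmono J top htop hJ
          refine h3.trans ?_
          calc D * (∏ i ∈ ((enu n (n - q)).symm I).1, s none i) * ∏ k ∈ J.1, lam k
              ≤ D * (∏ i ∈ ((enu n (n - q)).symm I).1, s none i) *
                (lam ⟨q - 1, by omega⟩ *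
                  ∏ l ∈ univ.filter (fun l : Fin n => q < (l : ℕ)), lam l) :=
                mul_le_mul_of_nonneg_left h4 (mul_nonneg (by linarith) (hsp none hv _).le)
            _ = D * ((lam ⟨q - 1, by omega⟩ *
                  ∏ l ∈ univ.filter (fun l : Fin n => q < (l : ℕ)), lam l) *
                  (∏ i ∈ ((enu n (n - q)).symm I).1, s none i)) := by ring
            _ ≤ D ^ (plc S).card * ((lam ⟨q - 1, by omega⟩ *
                  ∏ l ∈ univ.filter (fun l : Fin n => q < (l : ℕ)), lam l) *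
                  (∏ i ∈ ((enu n (n - q)).symm I).1, s none i)) :=
                mul_le_mul_of_nonneg_right hDc (mul_nonneg (mul_nonneg (hlam _).le
                  (Finset.prod_nonneg fun i _ => (hlam i).le)) (hsp none hv _).le)
            _ = _ := by ring
        | some r =>
          have hr : r ∈ S := by simpa [plc] using hv
          rw [if_neg (by simp), one_mul]
          have h3 := cmp_nv_le P n (n - q) hv (A (some r) * mM M B) (s (some r)) (fun _ => 1) 1
            (fun i => (hs _ hv i).le) (fun _ => zero_le_one) zero_le_one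
            (fun i k => by rw [one_mul, mul_one]; exact hB.fin_le r hr i k)
            ((enu n (n - q)).symm I) J
          simpa using h3
    -- solve
    have h5 : ((cmp (n - q) (mQ B))ᵀ).mulVec (fun I => y (enu n (n - q) I))
        = Pi.single top (∑ I, cmp (n - q) (mQ B) I top * y (enu n (n - q) I)) := by
      funext J
      by_cases hJ : J = top
      · subst hJ
        rw [Pi.single_eq_same]
        rfl
      · rw [Pi.single_eq_of_ne hJ]
        exact h1 J hJ
    set g : ℚ := ∑ I, cmp (n - q) (mQ B) I top * y (enu n (n - q) I) with hg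
    obtain ⟨hdet, hci⟩ := cmp_inv n (n - q) (mQ B) hBdet
    have h6 : (fun I => y (enu n (n - q) I)) =
        (((cmp (n - q) (mQ B))⁻¹)ᵀ).mulVec (Pi.single top g) := by
      rw [← h5, Matrix.mulVec_mulVec, ← Matrix.transpose_mul,
        Matrix.mul_nonsing_inv _ (isUnit_iff_ne_zero.mpr hdet), Matrix.transpose_one,
        Matrix.one_mulVec]
    refine ⟨g * w, fun I => ?_⟩
    have h7 := congrFun h6 ((enu n (n - q)).symm I)
    rw [Equiv.apply_symm_apply] at h7
    rw [h7, ← hci, ← cmp_transpose, Matrix.mulVec_single]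
    have h8 := hh' ((enu n (n - q)).symm I)
    show cmp (n - q) ((mQ B)⁻¹)ᵀ _ top * g = _
    rw [h8]
    ring
  · have hE : ∀ v ∈ plc S, ∀ I, P.nv v (cmp (n - q) ((A v * mM M B)⁻¹)ᵀ I top) ≤
        D * (∏ i ∈ I.1, (s v i)⁻¹) * (if v = none then ∏ k ∈ top.1, (lam k)⁻¹ else 1) := by
      intro v hv I
      cases v with
      | none =>
        rw [if_pos rfl]
        refine hbd S P none ((A none * mM M B)⁻¹)ᵀ (fun i => (s none i)⁻¹) (fun k => (lam k)⁻¹) C hS hv
          (fun i => (inv_pos.mpr (hs none hv i)).le) (fun i => (inv_pos.mpr (hlam i)).le)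
          (by linarith) (fun i k => ?_) I top
        have h1 := hB.inf_inv k i
        have h2 := hs none hv i
        have h3 := hlam k
        rw [Matrix.transpose_apply, mul_assoc, ← mul_inv, ← div_eq_mul_inv,
          le_div_iff₀ (mul_pos h2 h3), mul_comm (s none i)]
        exact h1
      | some r =>
        have hr : r ∈ S := by simpa [plc] using hv
        rw [if_neg (by simp)]
        have h0 := hbd S P (some r) ((A (some r) * mM M B)⁻¹)ᵀ (fun i => (s (some r) i)⁻¹)
          (fun k => 1) C hS hv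
          (fun i => (inv_pos.mpr (hs _ hv i)).le) (fun i => zero_le_one)
          (by linarith) (fun i k => ?_) I top
        · simpa using h0
        have h1 := hB.fin_inv r hr k i
        have h2 := hs _ hv i
        rw [Matrix.transpose_apply, mul_one, ← div_eq_mul_inv, le_div_iff₀ h2]
        exact h1
    refine ⟨fun v => av v w⁻¹ * (D * (if v = none then ∏ k ∈ top.1, (lam k)⁻¹ else 1)), ?_, ?_, ?_⟩
    · intro v hv
      refine mul_pos (hAVpos v hv _ (inv_ne_zero hw)) (mul_pos (by linarith) ?_)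
      split_ifs
      · exact Finset.prod_pos fun i _ => inv_pos.mpr (hlam i)
      · exact zero_lt_one
    · intro v hv I
      rw [hrow v hv, P.mul v hv, P.ext v hv]
      have h1 := hE v hv ((enu n (n - q)).symm I)
      have h2 := hsp v hv ((enu n (n - q)).symm I)
      have h3 := (hAVpos v hv _ (inv_ne_zero hw)).le
      have h4 : (∏ i ∈ ((enu n (n - q)).symm I).1, (s v i)⁻¹) *
          ∏ i ∈ ((enu n (n - q)).symm I).1, s v i = 1 := by
        rw [Finset.prod_inv_distrib]
        exact inv_mul_cancel₀ h2.ne'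
      calc av v w⁻¹ * P.nv v (cmp (n - q) ((A v * mM M B)⁻¹)ᵀ ((enu n (n - q)).symm I) top) *
            (∏ i ∈ ((enu n (n - q)).symm I).1, s v i)
          ≤ av v w⁻¹ * (D * (∏ i ∈ ((enu n (n - q)).symm I).1, (s v i)⁻¹) *
            (if v = none then ∏ k ∈ top.1, (lam k)⁻¹ else 1)) *
            (∏ i ∈ ((enu n (n - q)).symm I).1, s v i) :=
            mul_le_mul_of_nonneg_right (mul_le_mul_of_nonneg_left h1 h3) h2.le
        _ = av v w⁻¹ * (D * (if v = none then ∏ k ∈ top.1, (lam k)⁻¹ else 1)) *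
            ((∏ i ∈ ((enu n (n - q)).symm I).1, (s v i)⁻¹) *
              ∏ i ∈ ((enu n (n - q)).symm I).1, s v i) := by ring
        _ = _ := by rw [h4, mul_one]
    · -- the product formula
      have hBinv : ∀ r : ℕ, r.Prime → r ∉ S → ∀ i k, av (some r) ((mQ B)⁻¹ i k) ≤ 1 := by
        intro r hr hrS i k
        have := Fact.mk hr
        have h1 : (mQ B)⁻¹ i k = ((B.det : ℤ) : ℚ)⁻¹ * ((B.adjugate i k : ℤ) : ℚ) := by
          rw [Matrix.inv_def, Ring.inverse_eq_inv']
          have h2 : (mQ B).det = ((B.det : ℤ) : ℚ) :=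
            (RingHom.map_det (Int.castRingHom ℚ) B).symm
          have h3 : (mQ B).adjugate = mQ (B.adjugate) :=
            (RingHom.map_adjugate (Int.castRingHom ℚ) B).symm
          rw [h2, h3]
          rfl
        have h4 : padicNorm r ((B.det : ℤ) : ℚ) = 1 := by
          rw [padicNorm.int_eq_one_iff]
          intro h
          exact hrS (hB.det_S r hr h)
        have h5 : padicNorm r ((B.adjugate i k : ℤ) : ℚ) ≤ 1 := padicNorm.of_int _
        have h6 : padicNorm r ((mQ B)⁻¹ i k) ≤ 1 := by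
          rw [h1, padicNorm.mul, ← one_div, padicNorm.div, h4]
          simpa using h5
        show ((padicNorm r ((mQ B)⁻¹ i k) : ℚ) : ℝ) ≤ 1
        exact_mod_cast h6
      have hden : ∀ r : ℕ, r.Prime → (r : ℤ) ∣ (w.den : ℤ) → r ∈ S := by
        intro r hr hrd
        by_contra hrS
        have := Fact.mk hr
        obtain ⟨I, hI⟩ : ∃ I, ¬ (r : ℤ) ∣ h' I := by
          by_contra hcon
          push Not at hcon
          have h1 := hprim' r hcon
          rw [Int.isUnit_iff] at h1
          have h2 := hr.two_le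
          omega
        have h1 : padicNorm r ((h' I : ℤ) : ℚ) = 1 := by
          rw [padicNorm.int_eq_one_iff]
          exact hI
        have h2 : av (some r) (cmp (n - q) ((mQ B)⁻¹)ᵀ I top) ≤ ∏ i ∈ I.1, (1 : ℝ) :=
          padic_cmp hAV r hr _ (fun _ => 1) (fun _ => zero_le_one)
            (fun i k => hBinv r hr hrS k i) I top
        rw [Finset.prod_const_one] at h2
        have h3 : padicNorm r (cmp (n - q) ((mQ B)⁻¹)ᵀ I top) ≤ 1 := by
          have h4 : ((padicNorm r (cmp (n - q) ((mQ B)⁻¹)ᵀ I top) : ℚ) : ℝ) ≤ 1 := h2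
          exact_mod_cast h4
        have h5 : cmp (n - q) ((mQ B)⁻¹)ᵀ I top = w * h' I := hh' I
        rw [h5, padicNorm.mul, h1, mul_one] at h3
        have h6 : padicNorm r ((w.den : ℤ) : ℚ) < 1 := by
          rw [padicNorm.int_lt_one_iff]
          exact hrd
        have h7 : padicNorm r ((w.num : ℤ) : ℚ) = 1 := by
          rw [padicNorm.int_eq_one_iff]
          intro h8
          have h9 : r ∣ w.num.natAbs := Int.natCast_dvd.mp h8
          have h10 : r ∣ w.den := by exact_mod_cast hrd
          have h11 := Nat.dvd_gcd h9 h10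
          rw [w.reduced] at h11
          exact hr.one_lt.ne' (Nat.dvd_one.mp h11)
        have h8 : padicNorm r w * padicNorm r ((w.den : ℤ) : ℚ) = 1 := by
          rw [← padicNorm.mul, ← h7]
          congr 1
          exact_mod_cast Rat.mul_den_eq_num w
        have h9 : 0 ≤ padicNorm r w := padicNorm.nonneg _
        have h10 : 0 ≤ padicNorm r ((w.den : ℤ) : ℚ) := padicNorm.nonneg _
        nlinarith
      have hpw : ∏ v ∈ plc S, av v w⁻¹ ≤ 1 := by
        have h1 : (∏ v ∈ plc S, av v w⁻¹) * (∏ v ∈ plc S, av v ((w.num : ℤ) : ℚ)) =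
            ∏ v ∈ plc S, av v ((w.den : ℤ) : ℚ) := by
          rw [← Finset.prod_mul_distrib]
          refine Finset.prod_congr rfl fun v hv => ?_
          rw [← hAVmul v hv]
          congr 1
          have h2 := Rat.mul_den_eq_num w
          rw [← h2]
          push_cast
          field_simp
        have h2 : ∏ v ∈ plc S, av v ((w.den : ℤ) : ℚ) = 1 :=
          hAV.2.2 S hS |>.2.2.2.2.2.2.2.1 w.den (by exact_mod_cast w.den_ne_zero) hden
        have h3 := hAVpf w.num (Rat.num_ne_zero.mpr hw)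
        have h4 : 0 ≤ ∏ v ∈ plc S, av v w⁻¹ := Finset.prod_nonneg fun v _ => av_nonneg' _ _
        rw [h2] at h1
        nlinarith
      rw [Finset.prod_mul_distrib, Finset.prod_mul_distrib, Finset.prod_const,
        Finset.prod_ite_eq' (plc S) none, if_pos (by simp [plc]), one_div_div, ← htop,
        Finset.prod_inv_distrib]
      rw [← htop] at hltop
      calc (∏ v ∈ plc S, av v w⁻¹) * (D ^ (plc S).card * (∏ k ∈ top.1, lam k)⁻¹)
          ≤ 1 * (D ^ (plc S).card * (∏ k ∈ top.1, lam k)⁻¹) :=
            mul_le_mul_of_nonneg_right hpw (by positivity)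
        _ = _ := by rw [one_mul, div_eq_mul_inv]

end Pool.Agent.Helper72.SUBK
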